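import Pool.Agent.W2helper77.CS.Stm

/-!
# Project CS (helper77), piece GR: the graph distance is at least the least inversion number of a
rotation
-/

set_option autoImplicit false

namespace Pool.Agent.W2helper15.CS

open Pool.Agent.W2helper77.CS Pool.Agent.N476.CT Finset Equiv

lemma inv_swap_le {n : ℕ} {σ : Perm (Fin n)} {i j : Fin n} (hij : (i : ℕ) + 1 = j) :
    inv (swap i j * σ) ≤ inv σ + 1 := by
  unfold inv
  have hsub : (univ.filter fun p : Fin n × Fin n =>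
      p.1 < p.2 ∧ (swap i j * σ) p.2 < (swap i j * σ) p.1) ⊆
      insert (σ.symm i, σ.symm j)
        (univ.filter fun p : Fin n × Fin n => p.1 < p.2 ∧ σ p.2 < σ p.1) := by
    intro p hp
    rw [mem_filter] at hp
    rw [mem_insert, mem_filter]
    obtain ⟨_, hp1, hp2⟩ := hp
    rw [Perm.mul_apply, Perm.mul_apply] at hp2
    rcases swap_lt hij hp2 with h1 | ⟨h1, h2⟩
    · exact Or.inr ⟨mem_univ _, hp1, h1⟩
    · left
      rw [← h1, ← h2]
      simp
  exact (card_le_card hsub).trans (card_insert_le _ _)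

lemma walk_inv {n : ℕ} {a b : Cyc n} (w : (Gam n).Walk a b) : ∀ τ : Perm (Fin n),
    a.1 = τ * finRotate n * τ⁻¹ →
    ∃ τ' : Perm (Fin n), b.1 = τ' * finRotate n * τ'⁻¹ ∧ inv τ' ≤ inv τ + w.length := by
  induction w with
  | nil => exact fun τ h => ⟨τ, h, by simp⟩
  | @cons a c b hadj w ih =>
    intro τ h
    have hadj' := hadj
    obtain ⟨-, i, j, hij, hc⟩ := hadj'
    obtain ⟨τ', h1, h2⟩ := ih (swap i j * τ) (by
      rw [hc, h, mul_inv_rev, swap_inv]
      simp only [mul_assoc])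
    refine ⟨τ', h1, h2.trans ?_⟩
    have := inv_swap_le (σ := τ) hij
    rw [SimpleGraph.Walk.length_cons]
    omega

lemma pow_of_commute {m : ℕ} {ρ : Perm (Fin (m + 1))} (h : Commute ρ (finRotate (m + 1))) :
    ρ = finRotate (m + 1) ^ (ρ 0 : ℕ) := by
  ext j
  have h1 : (finRotate (m + 1) ^ (j : ℕ)) 0 = j := by
    rw [rot_apply, zero_add]
    apply Fin.ext
    rw [Fin.val_ofNat]
    exact Nat.mod_eq_of_lt j.2
  have h2 : ρ j = (finRotate (m + 1) ^ (j : ℕ)) (ρ 0) := by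
    conv_lhs => rw [← h1]
    have := congrArg (fun f : Perm (Fin (m + 1)) => f 0) (h.pow_right (j : ℕ)).eq
    exact this
  rw [h2, rot_apply, rot_apply]
  congr 1
  have e1 : Fin.ofNat (m + 1) (j : ℕ) = j := by
    apply Fin.ext
    rw [Fin.val_ofNat]
    exact Nat.mod_eq_of_lt j.2
  have e2 : Fin.ofNat (m + 1) (ρ 0 : ℕ) = ρ 0 := by
    apply Fin.ext
    rw [Fin.val_ofNat]
    exact Nat.mod_eq_of_lt (ρ 0).2
  rw [e1, e2]
  exact add_comm _ _

theorem gr : S_GR := by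
  intro n hn σ γ hγ k hk
  obtain ⟨m, rfl⟩ : ∃ m, n = m + 1 := ⟨n - 1, by omega⟩
  unfold SimpleGraph.edist
  refine le_iInf fun w => ?_
  obtain ⟨τ, h1, h2⟩ := walk_inv w 1 (by simp [cyc])
  have h3 : inv (1 : Perm (Fin (m + 1))) = 0 := by
    unfold inv
    rw [card_eq_zero, filter_eq_empty_iff]
    rintro p - ⟨h4, h5⟩
    simp only [Perm.one_apply] at h5
    exact absurd h4 (not_lt.2 h5.le)
  rw [h3, zero_add] at h2
  have h4 : Commute (σ⁻¹ * τ) (finRotate (m + 1)) := by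
    have h5 : τ * finRotate (m + 1) * τ⁻¹ = σ * finRotate (m + 1) * σ⁻¹ := h1.symm.trans hγ
    change σ⁻¹ * τ * finRotate (m + 1) = finRotate (m + 1) * (σ⁻¹ * τ)
    calc σ⁻¹ * τ * finRotate (m + 1) = σ⁻¹ * (τ * finRotate (m + 1) * τ⁻¹) * τ := by group
      _ = σ⁻¹ * (σ * finRotate (m + 1) * σ⁻¹) * τ := by rw [h5]
      _ = finRotate (m + 1) * (σ⁻¹ * τ) := by group
  have h5 := pow_of_commute h4
  have h6 : τ = σ * finRotate (m + 1) ^ (((σ⁻¹ * τ) 0 : Fin (m + 1)) : ℕ) := by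
    rw [← h5]
    group
  have h7 := hk _ ((σ⁻¹ * τ) 0).2
  rw [← h6] at h7
  exact_mod_cast h7.trans h2

end Pool.Agent.W2helper15.CS
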