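import Pool.Agent.W2helper77.CS.Stm

/-!
# Project CS (helper77), piece RL: `asc` of a rotation of the list of values
-/

set_option autoImplicit false

namespace Pool.Agent.W2helper15.CS

open Pool.Agent.W2helper77.CS

lemma vals_succ (m : ℕ) : vals (m + 1) = vals m ++ [2 * (m : ℤ) + 1, -(2 * (m : ℤ) + 1)] := by
  simp [vals, List.range_succ, List.flatMap_append]

lemma length_vals (m : ℕ) : (vals m).length = 2 * m := by
  induction m with
  | zero => simp [vals]
  | succ m ih => rw [vals_succ, List.length_append, ih]; simp; ring

lemma mem_vals_lt {m : ℕ} {b : ℤ} (h : b ∈ vals m) : -(2 * (m : ℤ)) < b ∧ b < 2 * m := by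
  unfold vals at h
  rw [List.mem_flatMap] at h
  obtain ⟨k, hk, hb⟩ := h
  rw [List.mem_range] at hk
  simp only [List.mem_cons, List.not_mem_nil, or_false] at hb
  rcases hb with rfl | rfl <;> omega

lemma cnt_vals : ∀ (m : ℕ) (a : ℤ), a ∈ vals m →
    ((vals m).countP (fun b => decide (b < a)) : ℤ) - (vals m).countP (fun b => decide (a < b)) = a
  | 0, a, h => by simp [vals] at h
  | m + 1, a, h => by
    have hall : ∀ b ∈ vals m, -(2 * (m : ℤ)) < b ∧ b < 2 * m := fun b hb => mem_vals_lt hb
    rw [vals_succ, List.mem_append] at h
    rw [vals_succ, List.countP_append, List.countP_append]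
    rcases h with h | h
    · have ih := cnt_vals m a h
      obtain ⟨h1, h2⟩ := hall a h
      have e1 : decide (2 * (m : ℤ) + 1 < a) = false := decide_eq_false (by omega)
      have e2 : decide (-(2 * (m : ℤ) + 1) < a) = true := decide_eq_true (by omega)
      have e3 : decide (a < 2 * (m : ℤ) + 1) = true := decide_eq_true (by omega)
      have e4 : decide (a < -(2 * (m : ℤ) + 1)) = false := decide_eq_false (by omega)
      simp only [List.countP_cons, List.countP_nil, e1, e2, e3, e4]
      push_cast
      simp
      linarith
    · simp only [List.mem_cons, List.not_mem_nil, or_false] at h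
      rcases h with rfl | rfl
      · have e1 : (vals m).countP (fun b => decide (b < 2 * (m : ℤ) + 1)) = 2 * m := by
          rw [← length_vals m]
          exact List.countP_eq_length.2 fun b hb => decide_eq_true (by have := hall b hb; omega)
        have e2 : (vals m).countP (fun b => decide (2 * (m : ℤ) + 1 < b)) = 0 :=
          List.countP_eq_zero.2 fun b hb => by
            have := hall b hb
            simp only [decide_eq_true_eq]
            omega
        rw [e1, e2]
        have e3 : decide (-(2 * (m : ℤ) + 1) < 2 * (m : ℤ) + 1) = true := decide_eq_true (by omega)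
        have e4 : decide (2 * (m : ℤ) + 1 < -(2 * (m : ℤ) + 1)) = false :=
          decide_eq_false (by omega)
        simp only [List.countP_cons, List.countP_nil, e3, e4, lt_self_iff_false, decide_false]
        push_cast
        simp
      · have e1 : (vals m).countP (fun b => decide (-(2 * (m : ℤ) + 1) < b)) = 2 * m := by
          rw [← length_vals m]
          exact List.countP_eq_length.2 fun b hb => decide_eq_true (by have := hall b hb; omega)
        have e2 : (vals m).countP (fun b => decide (b < -(2 * (m : ℤ) + 1))) = 0 :=
          List.countP_eq_zero.2 fun b hb => by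
            have := hall b hb
            simp only [decide_eq_true_eq]
            omega
        rw [e1, e2]
        have e3 : decide (-(2 * (m : ℤ) + 1) < 2 * (m : ℤ) + 1) = true := decide_eq_true (by omega)
        have e4 : decide (2 * (m : ℤ) + 1 < -(2 * (m : ℤ) + 1)) = false :=
          decide_eq_false (by omega)
        simp only [List.countP_cons, List.countP_nil, e3, e4, lt_self_iff_false, decide_false]
        push_cast
        simp

lemma asc_append (l : List ℤ) (a : ℤ) :
    asc (l ++ [a]) = asc l + l.countP (fun b => decide (b < a)) := by
  induction l with
  | nil => simp [asc]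
  | cons x l ih =>
    rw [List.cons_append, asc, ih, asc, List.countP_append, List.countP_cons]
    simp only [List.countP_cons, List.countP_nil, zero_add]
    ring

theorem rl : S_RL := by
  intro m L hL r
  induction r with
  | zero =>
    intro _
    simp
  | succ r ih =>
    intro hr
    have ih := ih (by omega)
    have hne : L.rotate r ≠ [] := by
      intro h
      have := congrArg List.length h
      rw [List.length_rotate] at this
      simp at this
      rw [this] at hr
      simp at hr
    obtain ⟨a, l, hal⟩ := List.exists_cons_of_ne_nil hne
    have hrot : L.rotate (r + 1) = l ++ [a] := by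
      rw [← List.rotate_rotate, hal]
      simp
    have ha : L[r]? = some a := by
      have h1 : (L.rotate r)[0]? = some a := by rw [hal]; rfl
      have h2 : 0 < L.length := by omega
      rw [List.getElem?_rotate h2] at h1
      rwa [Nat.zero_add, Nat.mod_eq_of_lt (by omega)] at h1
    have hsum : (L.take (r + 1)).sum = (L.take r).sum + a := by
      rw [List.take_add_one, ha]
      simp
    have hperm : (a :: l).Perm (vals m) := by
      rw [← hal]
      exact (List.rotate_perm L r).trans hL
    have hmem : a ∈ vals m := hperm.subset (by simp)
    have hcnt := cnt_vals m a hmem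
    rw [← hperm.countP_eq, ← hperm.countP_eq, List.countP_cons, List.countP_cons] at hcnt
    simp only [lt_self_iff_false, decide_false, Bool.false_eq_true, if_false, add_zero] at hcnt
    rw [hal] at ih
    have h1 : asc (a :: l) = l.countP (fun b => decide (a < b)) + asc l := rfl
    rw [h1] at ih
    rw [hrot, asc_append, hsum]
    push_cast at ih ⊢
    linarith

end Pool.Agent.W2helper15.CS
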