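import Pool.Agent.W2helper77.CS.Stm

/-!
# Project CS (helper77), piece TR: translation between permutations and lists of values
-/

set_option autoImplicit false

namespace Pool.Agent.W2helper15.CS

open Pool.Agent.W2helper77.CS Equiv

lemma countP_ofFn' : ∀ {n : ℕ} (g : Fin n → ℤ) (p : ℤ → Bool),
    (List.ofFn g).countP p = ∑ j, if p (g j) then 1 else 0
  | 0, g, p => by simp
  | n + 1, g, p => by
    rw [List.ofFn_succ, List.countP_cons, countP_ofFn', Fin.sum_univ_succ, add_comm]

lemma asc_ofFn : ∀ {n : ℕ} (f : Fin n → ℤ),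
    asc (List.ofFn f) = ∑ i, ∑ j, if i < j ∧ f i < f j then 1 else 0
  | 0, f => by simp [asc]
  | n + 1, f => by
    rw [List.ofFn_succ, asc, asc_ofFn, countP_ofFn', Fin.sum_univ_succ]
    congr 1
    · rw [Fin.sum_univ_succ]
      simp
    · refine Finset.sum_congr rfl fun i _ => ?_
      rw [Fin.sum_univ_succ]
      simp

lemma inv_eq {n : ℕ} (σ : Perm (Fin n)) :
    Pool.Agent.N476.CT.inv σ = ∑ i, ∑ j, if i < j ∧ σ j < σ i then 1 else 0 := by
  unfold Pool.Agent.N476.CT.inv
  rw [Finset.card_filter, ← Finset.univ_product_univ, Finset.sum_product]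

lemma tr1 (n : ℕ) (σ : Perm (Fin n)) :
    2 * (asc (lst σ) + Pool.Agent.N476.CT.inv σ) = n * (n - 1) := by
  have h1 : asc (lst σ) = ∑ i, ∑ j, if i < j ∧ σ i < σ j then 1 else 0 := by
    rw [lst, asc_ofFn]
    refine Finset.sum_congr rfl fun i _ => Finset.sum_congr rfl fun j _ => ?_
    have : (2 * ((σ i : ℕ) : ℤ) + 1 - n < 2 * ((σ j : ℕ) : ℤ) + 1 - n) ↔ σ i < σ j := by
      rw [Fin.lt_def]
      omega
    simp only [this]
  have h2 : asc (lst σ) + Pool.Agent.N476.CT.inv σ =
      ∑ i : Fin n, ∑ j : Fin n, if i < j then 1 else 0 := by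
    rw [h1, inv_eq, ← Finset.sum_add_distrib]
    refine Finset.sum_congr rfl fun i _ => ?_
    rw [← Finset.sum_add_distrib]
    refine Finset.sum_congr rfl fun j _ => ?_
    by_cases h : i < j
    · have hne : σ i ≠ σ j := fun e => (ne_of_lt h) (σ.injective e)
      rcases lt_or_gt_of_ne hne with h3 | h3
      · simp [h, h3, not_lt.2 h3.le]
      · simp [h, h3, not_lt.2 h3.le]
    · simp [h]
  have h3 : (∑ i : Fin n, ∑ j : Fin n, if j < i then 1 else 0) =
      ∑ i : Fin n, ∑ j : Fin n, if i < j then 1 else 0 := Finset.sum_comm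
  have h4 : (∑ i : Fin n, ∑ j : Fin n, if i = j then 1 else 0) = n := by
    simp
  have h5 : (∑ i : Fin n, ∑ j : Fin n, if i < j then 1 else 0) +
      (∑ i : Fin n, ∑ j : Fin n, if j < i then 1 else 0) +
      (∑ i : Fin n, ∑ j : Fin n, if i = j then 1 else 0) = n * n := by
    rw [← Finset.sum_add_distrib, ← Finset.sum_add_distrib]
    have : ∀ i : Fin n, ((∑ j : Fin n, if i < j then 1 else 0) +
        (∑ j : Fin n, if j < i then 1 else 0) + (∑ j : Fin n, if i = j then 1 else 0)) = n := by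
      intro i
      rw [← Finset.sum_add_distrib, ← Finset.sum_add_distrib]
      have : ∀ j : Fin n, ((if i < j then 1 else 0) + (if j < i then 1 else 0) +
          (if i = j then 1 else 0)) = 1 := by
        intro j
        rcases lt_trichotomy i j with h | h | h
        · simp [h, not_lt.2 h.le, ne_of_lt h]
        · simp [h]
        · simp [h, not_lt.2 h.le, (ne_of_lt h).symm]
      rw [Finset.sum_congr rfl fun j _ => this j]
      simp
    rw [Finset.sum_congr rfl fun i _ => this i]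
    simp
  rw [h2]
  rw [h3, h4] at h5
  rw [Nat.mul_sub, mul_one]
  omega

lemma tr2 (n : ℕ) (σ : Perm (Fin n)) (i : ℕ) : lst (σ * finRotate n ^ i) = (lst σ).rotate i := by
  rcases n with _ | m
  · simp [lst]
  · refine List.ext_getElem (by simp [lst]) fun k hk1 hk2 => ?_
    rw [List.getElem_rotate]
    simp only [lst, List.getElem_ofFn, List.length_ofFn, Perm.mul_apply]
    have hk : k < m + 1 := by simpa [lst] using hk1
    have : (finRotate (m + 1) ^ i) ⟨k, hk⟩ = ⟨(k + i) % (m + 1), Nat.mod_lt _ (by omega)⟩ := by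
      rw [Pool.Agent.N476.CT.rot_apply]
      apply Fin.ext
      simp [Fin.val_add]
    rw [this]

lemma gen1 {n : ℕ} {W : List ℤ} (hW : W.Nodup)
    (hm : ∀ a, a ∈ W ↔ ∃ s : Fin n, 2 * ((s : ℕ) : ℤ) + 1 - n = a) (σ : Perm (Fin n)) :
    (lst σ).Perm W := by
  rw [List.perm_ext_iff_of_nodup _ hW]
  · intro a
    rw [hm, lst, List.mem_ofFn]
    constructor
    · rintro ⟨i, hi⟩
      exact ⟨σ i, hi⟩
    · rintro ⟨s, hs⟩
      exact ⟨σ.symm s, by simpa using hs⟩
  · rw [lst, List.nodup_ofFn]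
    intro i j h
    simp only at h
    apply σ.injective
    apply Fin.ext
    omega

lemma gen2 {n : ℕ} {W : List ℤ} (hW : W.Nodup) (hlen : W.length = n)
    (hm : ∀ a, a ∈ W ↔ ∃ s : Fin n, 2 * ((s : ℕ) : ℤ) + 1 - n = a) (L : List ℤ) (hL : L.Perm W) :
    ∃ σ : Perm (Fin n), lst σ = L := by
  have hl : L.length = n := hL.length_eq.trans hlen
  have hnd : L.Nodup := hL.nodup_iff.2 hW
  have h1 : ∀ i : Fin n, ∃ s : Fin n, 2 * ((s : ℕ) : ℤ) + 1 - n = L[(i : ℕ)] := by
    intro i
    rw [← hm, ← hL.mem_iff]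
    exact List.getElem_mem _
  choose f hf using h1
  have hinj : Function.Injective f := by
    intro i j h
    have h2 : L[(i : ℕ)] = L[(j : ℕ)] := by rw [← hf, ← hf, h]
    have := (hnd.getElem_inj_iff).1 h2
    exact Fin.ext this
  refine ⟨Equiv.ofBijective f (Finite.injective_iff_bijective.1 hinj), ?_⟩
  refine List.ext_getElem (by simp [lst, hl]) fun k hk1 hk2 => ?_
  simp only [lst, List.getElem_ofFn, Equiv.ofBijective_apply]
  exact hf _

lemma mem_vals' (m : ℕ) (a : ℤ) :
    a ∈ vals m ↔ ∃ s : Fin (2 * m), 2 * ((s : ℕ) : ℤ) + 1 - ((2 * m : ℕ) : ℤ) = a := by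
  unfold vals
  simp only [List.mem_flatMap, List.mem_range, List.mem_cons, List.not_mem_nil, or_false]
  constructor
  · rintro ⟨k, hk, rfl | rfl⟩
    · exact ⟨⟨m + k, by omega⟩, by push_cast; ring⟩
    · exact ⟨⟨m - 1 - k, by omega⟩, by push_cast [show k ≤ m - 1 by omega, show 1 ≤ m by omega]; ring⟩
  · rintro ⟨s, rfl⟩
    by_cases h : m ≤ (s : ℕ)
    · exact ⟨s - m, by omega, Or.inl (by push_cast [h]; ring)⟩
    · exact ⟨m - 1 - s, by omega, Or.inr (by
        push_cast [show (s : ℕ) ≤ m - 1 by omega, show 1 ≤ m by omega]; ring)⟩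

lemma mem_valsO' (m : ℕ) (a : ℤ) :
    a ∈ valsO m ↔ ∃ s : Fin (2 * m + 1), 2 * ((s : ℕ) : ℤ) + 1 - ((2 * m + 1 : ℕ) : ℤ) = a := by
  unfold valsO
  simp only [List.mem_cons, List.mem_flatMap, List.mem_range, List.not_mem_nil, or_false]
  constructor
  · rintro (rfl | ⟨k, hk, rfl | rfl⟩)
    · exact ⟨⟨m, by omega⟩, by push_cast; ring⟩
    · exact ⟨⟨m + (k + 1), by omega⟩, by push_cast; ring⟩
    · exact ⟨⟨m - (k + 1), by omega⟩, by push_cast [show k + 1 ≤ m by omega]; ring⟩
  · rintro ⟨s, rfl⟩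
    rcases lt_trichotomy (s : ℕ) m with h | h | h
    · exact Or.inr ⟨m - 1 - s, by omega, Or.inr (by
        push_cast [show (s : ℕ) ≤ m - 1 by omega, show 1 ≤ m by omega]; ring)⟩
    · exact Or.inl (by rw [h]; push_cast; ring)
    · exact Or.inr ⟨s - m - 1, by omega, Or.inl (by
        push_cast [show 1 ≤ (s : ℕ) - m by omega, show m ≤ (s : ℕ) by omega]; ring)⟩

lemma nodup_flat (g : ℕ → ℤ) (hg : ∀ k, 0 < g k) (hinj : Function.Injective g) (m : ℕ) :
    ((List.range m).flatMap fun k : ℕ => [g k, -g k]).Nodup := by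
  rw [List.nodup_flatMap]
  refine ⟨fun k _ => ?_, ?_⟩
  · have := hg k
    simp only [List.nodup_cons, List.mem_singleton, List.not_mem_nil, not_false_eq_true,
      List.nodup_nil, and_true]
    omega
  · refine (List.nodup_range (n := m)).imp ?_
    intro a b hab
    have h1 := hg a
    have h2 := hg b
    have h3 : g a ≠ g b := fun e => hab (hinj e)
    rw [Function.onFun, List.disjoint_left]
    intro x hx hy
    simp only [List.mem_cons, List.not_mem_nil, or_false] at hx hy
    omega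

lemma nodup_vals (m : ℕ) : (vals m).Nodup :=
  nodup_flat (fun k => 2 * (k : ℤ) + 1) (fun k => by positivity) (fun a b h => by
    simp only at h; omega) m

lemma nodup_valsO (m : ℕ) : (valsO m).Nodup := by
  unfold valsO
  rw [List.nodup_cons]
  refine ⟨?_, nodup_flat (fun k => 2 * (k : ℤ) + 2) (fun k => by positivity) (fun a b h => by
    simp only at h; omega) m⟩
  simp only [List.mem_flatMap, List.mem_range, List.mem_cons, List.not_mem_nil, or_false]
  rintro ⟨k, hk, h | h⟩ <;> omega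

lemma len_flat (g h : ℕ → ℤ) (m : ℕ) :
    ((List.range m).flatMap fun k : ℕ => [g k, h k]).length = 2 * m := by
  simp [List.length_flatMap, mul_comm]

theorem tr : S_TR := by
  refine ⟨tr1, tr2, fun m σ => gen1 (nodup_vals m) (mem_vals' m) σ,
    fun m σ => gen1 (nodup_valsO m) (mem_valsO' m) σ,
    fun m L hL => gen2 (nodup_vals m) (len_flat _ _ m) (mem_vals' m) L hL,
    fun m L hL => gen2 (nodup_valsO m) ?_ (mem_valsO' m) L hL⟩
  rw [valsO, List.length_cons, len_flat]

end Pool.Agent.W2helper15.CS
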